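import Pool.Agent.PKL.Win

set_option autoImplicit false

/-!
# The deterministic inequality for the turns with a one (MP_f1618c_pr)
-/

open scoped Classical
open Finset

noncomputable section

namespace Pool.Agent.PKL

/-- The elements of `Z` have distance at least `k`. -/
def Gap (k : ℕ) (Z : Finset ℕ) : Prop := ∀ m ∈ Z, ∀ m' ∈ Z, m < m' → m + k ≤ m'

/-- Contracted position. -/
def con (k : ℕ) (Z : Finset ℕ) (m : ℕ) : ℤ := (m : ℤ) - k * (Z.filter (fun z => z < m)).card

theorem gap_card {k : ℕ} {Z : Finset ℕ} (hZ : Gap k Z) (a b : ℕ) (S : Finset ℕ) (hS : S ⊆ Z)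
    (h1 : ∀ z ∈ S, a ≤ z ∧ z + k ≤ b) (_hab : a ≤ b) : k * S.card ≤ b - a := by
  have hsub : S.biUnion (fun z => Ico z (z + k)) ⊆ Ico a b := by
    intro t ht
    simp only [mem_biUnion, mem_Ico] at ht ⊢
    obtain ⟨z, hz, h2, h3⟩ := ht
    have := h1 z hz
    omega
  have hcard := card_le_card hsub
  rw [card_biUnion, Nat.card_Ico] at hcard
  · simp only [Nat.card_Ico, add_tsub_cancel_left, sum_const, smul_eq_mul] at hcard
    rw [mul_comm]
    exact hcard
  · intro x hx y hy hxy
    rw [Function.onFun, disjoint_left]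
    intro t h2 h3
    simp only [mem_Ico] at h2 h3
    rcases lt_or_gt_of_ne hxy with h | h
    · have := hZ x (hS hx) y (hS hy) h
      omega
    · have := hZ y (hS hy) x (hS hx) h
      omega

/-- Difference of contracted positions. -/
theorem con_sub (k : ℕ) (Z : Finset ℕ) {m m' : ℕ} (h : m ≤ m') :
    con k Z m' - con k Z m = (m' : ℤ) - m - k * (Z.filter (fun z => m ≤ z ∧ z < m')).card := by
  unfold con
  have : (Z.filter (fun z => z < m')).card =
      (Z.filter (fun z => z < m)).card + (Z.filter (fun z => m ≤ z ∧ z < m')).card := by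
    rw [← card_union_of_disjoint]
    · congr 1
      ext t
      simp only [mem_filter, mem_union]
      constructor
      · rintro ⟨h1, h2⟩
        by_cases h3 : t < m
        · exact Or.inl ⟨h1, h3⟩
        · exact Or.inr ⟨h1, by omega, h2⟩
      · rintro (⟨h1, h2⟩ | ⟨h1, h2, h3⟩)
        · exact ⟨h1, by omega⟩
        · exact ⟨h1, h3⟩
    · rw [disjoint_left]
      intro t h1 h2
      simp only [mem_filter] at h1 h2
      omega
  rw [this]
  push_cast
  ring

theorem con_mono {k : ℕ} {Z : Finset ℕ} (hZ : Gap k Z) {m m' : ℕ} (hm' : m' ∈ Z) (h : m ≤ m') :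
    con k Z m ≤ con k Z m' := by
  have h1 := con_sub k Z h
  have h2 := gap_card hZ m m' (Z.filter (fun z => m ≤ z ∧ z < m')) (filter_subset _ _)
    (fun z hz => by
      simp only [mem_filter] at hz
      exact ⟨hz.2.1, hZ z hz.1 m' hm' hz.2.2⟩) h
  have h3 : (k : ℤ) * (Z.filter (fun z => m ≤ z ∧ z < m')).card ≤ (m' : ℤ) - m := by
    have : ((k * (Z.filter (fun z => m ≤ z ∧ z < m')).card : ℕ) : ℤ) ≤ ((m' - m : ℕ) : ℤ) := by
      exact_mod_cast h2
    push_cast [Nat.cast_sub h] at this
    exact this
  linarith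

/-- Strict version: the next turn of the same walker has no one. -/
theorem con_card {k : ℕ} {Z : Finset ℕ} (hZ : Gap k Z) {m m' : ℕ} (hm : m ∈ Z) (hm' : m' ∈ Z)
    (hk : m + k ∉ Z) (h : m < m') :
    k * (Z.filter (fun z => m ≤ z ∧ z < m')).card + 1 ≤ m' - m := by
  have h0 : m + k + 1 ≤ m' := by
    have h1 := hZ m hm m' hm' h
    have h2 : m + k ≠ m' := fun h3 => hk (h3 ▸ hm')
    omega
  have h1 : Z.filter (fun z => m ≤ z ∧ z < m') =
      insert m (Z.filter (fun z => m + k + 1 ≤ z ∧ z < m')) := by
    ext t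
    simp only [mem_filter, mem_insert]
    constructor
    · rintro ⟨h1, h2, h3⟩
      by_cases h4 : t = m
      · exact Or.inl h4
      · right
        have h5 := hZ m hm t h1 (by omega)
        have h6 : m + k ≠ t := fun h7 => hk (h7 ▸ h1)
        exact ⟨h1, by omega, h3⟩
    · rintro (h1 | ⟨h1, h2, h3⟩)
      · rw [h1]
        exact ⟨hm, le_rfl, h⟩
      · exact ⟨h1, by omega, h3⟩
  have h2 := gap_card hZ (m + k + 1) m' (Z.filter (fun z => m + k + 1 ≤ z ∧ z < m'))
    (filter_subset _ _) (fun z hz => by
      simp only [mem_filter] at hz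
      exact ⟨hz.2.1, hZ z hz.1 m' hm' hz.2.2⟩) h0
  rw [h1, card_insert_of_notMem]
  · rw [mul_add, mul_one]
    omega
  · simp only [mem_filter]
    omega

theorem con_lt {k : ℕ} {Z : Finset ℕ} (hZ : Gap k Z) {m m' : ℕ} (hm : m ∈ Z) (hm' : m' ∈ Z)
    (hk : m + k ∉ Z) (h : m < m') : con k Z m < con k Z m' := by
  have h1 := con_sub k Z h.le
  have h2 := con_card hZ hm hm' hk h
  have h3 : (k : ℤ) * (Z.filter (fun z => m ≤ z ∧ z < m')).card + 1 ≤ (m' : ℤ) - m := by
    have : ((k * (Z.filter (fun z => m ≤ z ∧ z < m')).card + 1 : ℕ) : ℤ) ≤ ((m' - m : ℕ) : ℤ) := by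
      exact_mod_cast h2
    push_cast [Nat.cast_sub h.le] at this
    exact this
  linarith

/-- The walker of turn `m` has ones at `m` and at `m + s * k`, and none in between. -/
def Fr (k : ℕ) (Z : Finset ℕ) (m s : ℕ) : Prop :=
  m ∈ Z ∧ m + s * k ∈ Z ∧ ∀ i, 0 < i → i < s → m + i * k ∉ Z

theorem Fr.unique {k : ℕ} {Z : Finset ℕ} {m s s' : ℕ} (hs : 0 < s) (hs' : 0 < s')
    (h : Fr k Z m s) (h' : Fr k Z m s') : s = s' := by
  by_contra hne
  rcases lt_or_gt_of_ne hne with h1 | h1
  · exact h'.2.2 s hs h1 h.2.1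
  · exact h.2.2 s' hs' h1 h'.2.1

/-- A first return after `s ≥ 2` rounds gives a term at least `1 / (s - 1)`. -/
theorem Fr.w_ge {k : ℕ} {Z : Finset ℕ} (hk : 1 ≤ k) (hZ : Gap k Z) {m i : ℕ}
    (h : Fr k Z m (i + 2)) : (1 : ℝ) / (i + 1) ≤ w k (Z.image (con k Z)) (con k Z m) := by
  obtain ⟨hm, hm', hno⟩ := h
  set m' := m + (i + 2) * k with hmm
  have hlt : m < m' := by
    have : 0 < (i + 2) * k := by positivity
    omega
  have hk1 : m + k ∉ Z := by
    have := hno 1 one_pos (by omega)
    rwa [one_mul] at this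
  have hcard := con_card hZ hm hm' hk1 hlt
  set N := (Z.filter (fun z => m ≤ z ∧ z < m')).card with hN
  have hNle : N ≤ i + 1 := by
    have h1 : m' - m = (i + 2) * k := by omega
    rw [h1] at hcard
    by_contra hcon
    have h2 : k * (i + 2) ≤ k * N := Nat.mul_le_mul_left k (by omega)
    have h3 : k * (i + 2) = (i + 2) * k := mul_comm _ _
    omega
  have hsub := con_sub k Z hlt.le
  have hdiff : con k Z m' - con k Z m = k * ((i + 2 : ℤ) - N) := by
    rw [hsub, hmm]
    push_cast
    ring
  have hRet : Ret k (Z.image (con k Z)) (con k Z m) (con k Z m') := by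
    refine ⟨mem_image_of_mem _ hm', con_lt hZ hm hm' hk1 hlt, ⟨_, hdiff⟩, ?_⟩
    intro z hz h1 h2 h3
    simp only [mem_image] at hz
    obtain ⟨t, ht, rfl⟩ := hz
    have h4 : m < t := by
      by_contra hcon
      exact absurd (con_mono hZ hm (not_lt.mp hcon)) (not_le.mpr h1)
    have h5 : t < m' := by
      by_contra hcon
      exact absurd (con_mono hZ ht (not_lt.mp hcon)) (not_le.mpr h2)
    have h6 := con_sub k Z h4.le
    have h7 : (k : ℤ) ∣ (t : ℤ) - m := by
      have := dvd_add h3 (dvd_mul_right (k : ℤ) ((Z.filter (fun z => m ≤ z ∧ z < t)).card : ℤ))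
      rw [h6] at this
      simpa using this
    obtain ⟨c, hc⟩ := h7
    have hkz : (0 : ℤ) < k := by exact_mod_cast hk
    have hc0 : 0 < c := by
      have h8 : (0 : ℤ) < (t : ℤ) - m := by
        have : (m : ℤ) < t := by exact_mod_cast h4
        linarith
      rw [hc] at h8
      exact (mul_pos_iff_of_pos_left hkz).mp h8
    have hc1 : c < i + 2 := by
      have h8 : (t : ℤ) - m < k * (i + 2) := by
        have h9 : (t : ℤ) < m' := by exact_mod_cast h5
        rw [hmm] at h9
        push_cast at h9
        linarith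
      rw [hc] at h8
      exact lt_of_mul_lt_mul_left h8 hkz.le
    obtain ⟨d, rfl⟩ : ∃ d : ℕ, c = d := ⟨c.toNat, by omega⟩
    refine hno d (by exact_mod_cast hc0) (by exact_mod_cast hc1) ?_
    have : t = m + d * k := by
      have h9 : (t : ℤ) = m + d * k := by linarith
      exact_mod_cast h9
    rwa [← this]
  rw [w_of_ret hRet]
  have hcnt : cnt (Z.image (con k Z)) (con k Z m) (con k Z m') ≤ N := by
    have hIoc : (Z.filter (fun z => m < z ∧ z ≤ m')).card = N := by
      have e1 : Z.filter (fun z => m < z ∧ z ≤ m') =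
          insert m' (Z.filter (fun z => m < z ∧ z < m')) := by
        ext t
        simp only [mem_filter, mem_insert]
        constructor
        · rintro ⟨h1, h2, h3⟩
          by_cases h4 : t = m'
          · exact Or.inl h4
          · exact Or.inr ⟨h1, h2, by omega⟩
        · rintro (h1 | ⟨h1, h2, h3⟩)
          · rw [h1]
            exact ⟨hm', hlt, le_rfl⟩
          · exact ⟨h1, h2, h3.le⟩
      have e2 : Z.filter (fun z => m ≤ z ∧ z < m') =
          insert m (Z.filter (fun z => m < z ∧ z < m')) := by
        ext t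
        simp only [mem_filter, mem_insert]
        constructor
        · rintro ⟨h1, h2, h3⟩
          by_cases h4 : t = m
          · exact Or.inl h4
          · exact Or.inr ⟨h1, by omega, h3⟩
        · rintro (h1 | ⟨h1, h2, h3⟩)
          · rw [h1]
            exact ⟨hm, le_rfl, hlt⟩
          · exact ⟨h1, h2.le, h3⟩
      rw [hN, e1, e2, card_insert_of_notMem, card_insert_of_notMem]
      · simp only [mem_filter]
        omega
      · simp only [mem_filter]
        omega
    rw [← hIoc]
    unfold cnt
    refine le_trans (card_le_card (t := (Z.filter (fun z => m < z ∧ z ≤ m')).image (con k Z)) ?_)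
      card_image_le
    intro z hz
    simp only [mem_filter, mem_image] at hz ⊢
    obtain ⟨⟨t, ht, rfl⟩, h1, h2⟩ := hz
    have h4 : m < t := by
      by_contra hcon
      exact absurd (con_mono hZ hm (not_lt.mp hcon)) (not_le.mpr h1)
    by_cases h5 : t ≤ m'
    · exact ⟨t, ⟨ht, h4, h5⟩, rfl⟩
    · exact ⟨m', ⟨hm', hlt, le_rfl⟩, le_antisymm (con_mono hZ ht (by omega)) h2⟩
  have hpos : 0 < cnt (Z.image (con k Z)) (con k Z m) (con k Z m') :=
    cnt_pos hRet.1 hRet.2.1 le_rfl
  refine one_div_le_one_div_of_le (by exact_mod_cast hpos) ?_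
  have : cnt (Z.image (con k Z)) (con k Z m) (con k Z m') ≤ i + 1 := hcnt.trans hNle
  exact_mod_cast this

/-- The deterministic inequality. -/
theorem det {k : ℕ} (hk : 1 ≤ k) {Z : Finset ℕ} (hZ : Gap k Z) {n : ℕ}
    (hn : ∀ m ∈ Z, m < n * k) (S : Finset ℕ) (M : ℕ) :
    ∑ m ∈ S, ∑ i ∈ range M, (if Fr k Z m (i + 2) then (1 : ℝ) / (i + 1) else 0) ≤
      n - Z.card := by
  have hcardZ : Z.card ≤ n := by
    have h1 := gap_card hZ 0 (n * k + k - 1) Z (Subset.refl _) (fun z hz => by
      have := hn z hz
      omega) (by omega)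
    by_contra hcon
    have h2 : k * (n + 1) ≤ k * Z.card := Nat.mul_le_mul_left k (by omega)
    have h3 : k * (n + 1) = n * k + k := by ring
    omega
  -- every row is at most the term of the contracted set
  set T := Z.filter (fun m => ∃ i, Fr k Z m (i + 2)) with hT
  have hrow : ∀ m, ∑ i ∈ range M, (if Fr k Z m (i + 2) then (1 : ℝ) / (i + 1) else 0) ≤
      if m ∈ T then w k (Z.image (con k Z)) (con k Z m) else 0 := by
    intro m
    by_cases hm : ∃ i, Fr k Z m (i + 2)
    · obtain ⟨i, hi⟩ := hm
      have hmT : m ∈ T := by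
        simp only [hT, mem_filter]
        exact ⟨hi.1, i, hi⟩
      rw [if_pos hmT]
      refine le_trans ?_ (hi.w_ge hk hZ)
      calc ∑ j ∈ range M, (if Fr k Z m (j + 2) then (1 : ℝ) / (j + 1) else 0)
          ≤ ∑ j ∈ range M, (if j = i then (1 : ℝ) / (i + 1) else 0) := by
            refine sum_le_sum fun j _ => ?_
            by_cases hj : Fr k Z m (j + 2)
            · have : j = i := by
                have := hj.unique (by omega) (by omega) hi
                omega
              subst this
              rw [if_pos hj, if_pos rfl]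
            · rw [if_neg hj]
              split_ifs
              · positivity
              · exact le_rfl
        _ ≤ 1 / (i + 1) := by
            rw [sum_ite_eq']
            split_ifs
            · exact le_rfl
            · positivity
    · rw [sum_eq_zero fun i _ => if_neg fun h => hm ⟨i, h⟩]
      split_ifs
      · exact w_nonneg _ _ _
      · exact le_rfl
  have h1 : ∑ m ∈ S, ∑ i ∈ range M, (if Fr k Z m (i + 2) then (1 : ℝ) / (i + 1) else 0) ≤
      ∑ m ∈ T, w k (Z.image (con k Z)) (con k Z m) := by
    refine (sum_le_sum fun m _ => hrow m).trans ?_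
    rw [← sum_filter]
    refine sum_le_sum_of_subset_of_nonneg ?_ fun m _ _ => w_nonneg _ _ _
    intro m hm
    simp only [mem_filter] at hm
    exact hm.2
  have hinj : ∀ m ∈ T, ∀ m' ∈ T, con k Z m = con k Z m' → m = m' := by
    have key : ∀ m ∈ T, ∀ m' ∈ T, m < m' → con k Z m ≠ con k Z m' := by
      intro m hm m' hm' hlt
      simp only [hT, mem_filter] at hm hm'
      obtain ⟨hm, i, hi⟩ := hm
      have hk1 : m + k ∉ Z := by
        have := hi.2.2 1 one_pos (by omega)
        rwa [one_mul] at this
      exact (con_lt hZ hm hm'.1 hk1 hlt).ne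
    intro m hm m' hm' he
    by_contra hne
    rcases lt_or_gt_of_ne hne with h | h
    · exact key m hm m' hm' h he
    · exact key m' hm' m hm h he.symm
  have h2 : ∑ m ∈ T, w k (Z.image (con k Z)) (con k Z m) ≤ W k (Z.image (con k Z)) := by
    rw [← sum_image (f := fun x => w k (Z.image (con k Z)) x) hinj]
    unfold W
    refine sum_le_sum_of_subset_of_nonneg ?_ fun m _ _ => w_nonneg _ _ _
    exact image_subset_image (filter_subset _ _)
  have h3 : W k (Z.image (con k Z)) ≤ ((n - Z.card : ℕ) : ℝ) := by
    refine main hk (n - Z.card) _ 0 ((n : ℤ) * k - k * Z.card + k - 1) ?_ ?_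
    · intro x hx
      simp only [mem_image] at hx
      obtain ⟨m, hm, rfl⟩ := hx
      have hA := gap_card hZ 0 m (Z.filter (fun z => z < m)) (filter_subset _ _)
        (fun z hz => by
          simp only [mem_filter] at hz
          exact ⟨Nat.zero_le _, hZ z hz.1 m hm hz.2⟩) (Nat.zero_le _)
      have hmn := hn m hm
      have hB := gap_card hZ m (n * k + k - 1) (Z.filter (fun z => m ≤ z)) (filter_subset _ _)
        (fun z hz => by
          simp only [mem_filter] at hz
          have := hn z hz.1
          omega) (by omega)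
      have hC : Z.card = (Z.filter (fun z => z < m)).card + (Z.filter (fun z => m ≤ z)).card := by
        rw [← card_filter_add_card_filter_not (s := Z) (fun z => z < m)]
        congr 2
        ext t
        simp
      constructor
      · unfold con
        have : ((k * (Z.filter (fun z => z < m)).card : ℕ) : ℤ) ≤ ((m - 0 : ℕ) : ℤ) := by
          exact_mod_cast hA
        push_cast at this
        simp only [Nat.sub_zero] at this
        linarith
      · unfold con
        have h4 : ((k * (Z.filter (fun z => m ≤ z)).card : ℕ) : ℤ) ≤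
            ((n * k + k - 1 - m : ℕ) : ℤ) := by exact_mod_cast hB
        have h5 : ((n * k + k - 1 - m : ℕ) : ℤ) = (n : ℤ) * k + k - 1 - m := by
          have : m + 1 ≤ n * k + k := by omega
          have h6 : n * k + k - 1 - m = n * k + k - (m + 1) := by omega
          rw [h6, Nat.cast_sub this]
          push_cast
          ring
        rw [h5] at h4
        push_cast at h4
        rw [hC]
        push_cast
        nlinarith
    · have : ((n - Z.card : ℕ) : ℤ) = (n : ℤ) - Z.card := Nat.cast_sub hcardZ
      rw [this]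
      nlinarith
  rw [Nat.cast_sub hcardZ] at h3
  linarith

end Pool.Agent.PKL
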