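import Pool.Agent.PKA.Targets
import Pool.Agent.PKL.Det

set_option autoImplicit false

/-!
# The upper bound for couplings of Bernoulli walkers (MP_f1618c_pr)
-/

open scoped Classical
open MeasureTheory ProbabilityTheory Filter Topology Finset
open Pool.Agent.PKA

noncomputable section

namespace Pool.Agent.PKL

/-- The position taken at turn `m`. -/
def bt {Ω : Type} {k : ℕ} (hk : 0 < k) (X : Fin k → ℕ → Ω → Bool) (m : ℕ) (ω : Ω) : Bool :=
  X ⟨m % k, Nat.mod_lt m hk⟩ (m / k) ω

/-- The turns with a one among the first `N * k` turns. -/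
def ones {Ω : Type} {k : ℕ} (hk : 0 < k) (X : Fin k → ℕ → Ω → Bool) (N : ℕ) (ω : Ω) : Finset ℕ :=
  (range (N * k)).filter (fun m => bt hk X m ω = true)

/-- The event that the walker of turn `m` has a one there, the next one `i + 2` steps later. -/
def Ev {Ω : Type} {k : ℕ} (hk : 0 < k) (X : Fin k → ℕ → Ω → Bool) (m i : ℕ) : Set Ω :=
  {ω | bt hk X m ω = true ∧ bt hk X (m + (i + 2) * k) ω = true ∧
    ∀ j, 0 < j → j < i + 2 → bt hk X (m + j * k) ω = false}

theorem gap_ones {Ω : Type} {k : ℕ} (hk : 0 < k) (X : Fin k → ℕ → Ω → Bool) (N : ℕ) (ω : Ω)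
    (h : ∀ (i j : Fin k) (s t : ℕ), s * k + i < t * k + j → t * k + j < s * k + i + k →
    ¬ (X i s ω = true ∧ X j t ω = true)) : Gap k (ones hk X N ω) := by
  intro m hm m' hm' hlt
  by_contra hcon
  simp only [ones, mem_filter, bt] at hm hm'
  have e1 : m / k * k + m % k = m := Nat.div_add_mod' m k
  have e2 : m' / k * k + m' % k = m' := Nat.div_add_mod' m' k
  refine h ⟨m % k, Nat.mod_lt m hk⟩ ⟨m' % k, Nat.mod_lt m' hk⟩ (m / k) (m' / k) ?_ ?_
    ⟨hm.2, hm'.2⟩
  · simp only [e1, e2]; exact hlt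
  · simp only [e1, e2]; omega

theorem fr_of_ev {Ω : Type} {k : ℕ} (hk : 0 < k) (X : Fin k → ℕ → Ω → Bool) {n M m i : ℕ}
    (hm : m < n * k) (hi : i < M) {ω : Ω} (h : ω ∈ Ev hk X m i) :
    Fr k (ones hk X (n + M + 1) ω) m (i + 2) := by
  obtain ⟨h1, h2, h3⟩ := h
  have hle : m + (i + 2) * k < (n + M + 1) * k := by
    have : (i + 2) * k ≤ (M + 1) * k := Nat.mul_le_mul_right k (by omega)
    have e : (n + M + 1) * k = n * k + (M + 1) * k := by ring
    omega
  refine ⟨?_, ?_, ?_⟩
  · simp only [ones, mem_filter, mem_range]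
    exact ⟨by omega, h1⟩
  · simp only [ones, mem_filter, mem_range]
    exact ⟨hle, h2⟩
  · intro j hj1 hj2
    simp only [ones, mem_filter, mem_range, not_and]
    intro _
    rw [h3 j hj1 hj2]
    simp

section
variable {Ω : Type} [MeasurableSpace Ω] {P : Measure Ω} {k : ℕ} {p : ℝ}
  {X : Fin k → ℕ → Ω → Bool}

theorem prob_true (hX : IsCoupling P k p X) (hp : 0 ≤ p) (j : Fin k) (t : ℕ) :
    P.real {ω | X j t ω = true} = p := by
  unfold Measure.real
  rw [hX.law j t, ENNReal.toReal_ofReal hp]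

theorem meas_val (hX : IsCoupling P k p X) (j : Fin k) (t : ℕ) (b : Bool) :
    MeasurableSet {ω | X j t ω = b} :=
  hX.meas j t (MeasurableSet.of_discrete (s := {b}))

theorem prob_false (hX : IsCoupling P k p X) (hp : 0 ≤ p) (j : Fin k) (t : ℕ) :
    P.real {ω | X j t ω = false} = 1 - p := by
  have := hX.prob
  have e : {ω | X j t ω = false} = {ω | X j t ω = true}ᶜ := by
    ext ω
    simp
  rw [e, probReal_compl_eq_one_sub (meas_val hX j t true), prob_true hX hp]

omit [MeasurableSpace Ω] in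
theorem ev_eq (hk : 0 < k) (m i : ℕ) : Ev hk X m i =
    ⋂ u ∈ Ico (m / k) (m / k + (i + 3)), X ⟨m % k, Nat.mod_lt m hk⟩ u ⁻¹'
      (if u = m / k ∨ u = m / k + (i + 2) then {true} else {false}) := by
  ext ω
  have key : ∀ j, bt hk X (m + j * k) ω = X ⟨m % k, Nat.mod_lt m hk⟩ (m / k + j) ω := by
    intro j
    unfold bt
    have e1 : (m + j * k) % k = m % k := Nat.add_mul_mod_self_right m j k
    have e2 : (m + j * k) / k = m / k + j := Nat.add_mul_div_right m j hk
    simp only [e1, e2]
  simp only [Ev, Set.mem_ofPred_eq, Set.mem_iInter, mem_Ico, Set.mem_preimage]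
  constructor
  · rintro ⟨h1, h2, h3⟩ u hu
    by_cases hu1 : u = m / k
    · rw [if_pos (Or.inl hu1), hu1]
      have := key 0
      simp only [zero_mul, add_zero] at this
      rw [Set.mem_singleton_iff, ← this]
      exact h1
    · by_cases hu2 : u = m / k + (i + 2)
      · rw [if_pos (Or.inr hu2), hu2, Set.mem_singleton_iff, ← key]
        exact h2
      · rw [if_neg (by tauto), Set.mem_singleton_iff]
        have := h3 (u - m / k) (by omega) (by omega)
        rw [key, show m / k + (u - m / k) = u by omega] at this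
        exact this
  · intro h
    refine ⟨?_, ?_, ?_⟩
    · have h0 := h (m / k) (by omega)
      rw [if_pos (Or.inl rfl), Set.mem_singleton_iff] at h0
      have := key 0
      simp only [zero_mul, add_zero] at this
      rw [this]
      exact h0
    · have h0 := h (m / k + (i + 2)) (by omega)
      rw [if_pos (Or.inr rfl), Set.mem_singleton_iff] at h0
      rw [key]
      exact h0
    · intro j hj1 hj2
      have h0 := h (m / k + j) (by omega)
      rw [if_neg (by omega), Set.mem_singleton_iff] at h0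
      rw [key]
      exact h0

theorem meas_ev (hX : IsCoupling P k p X) (hk : 0 < k) (m i : ℕ) :
    MeasurableSet (Ev hk X m i) := by
  rw [ev_eq]
  refine Finset.measurableSet_biInter _ fun u _ => ?_
  exact hX.meas _ u MeasurableSet.of_discrete

theorem prob_ev (hX : IsCoupling P k p X) (hp : 0 ≤ p) (hk : 0 < k) (m i : ℕ) :
    P.real (Ev hk X m i) = p ^ 2 * (1 - p) ^ (i + 1) := by
  set j : Fin k := ⟨m % k, Nat.mod_lt m hk⟩ with hj
  set t : ℕ := m / k with ht
  have h := (hX.indep j).measure_inter_preimage_eq_mul (Ico t (t + (i + 3)))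
    (sets := fun u => if u = t ∨ u = t + (i + 2) then {true} else {false})
    (fun u _ => MeasurableSet.of_discrete)
  rw [ev_eq]
  unfold Measure.real
  rw [h, ENNReal.toReal_prod, Finset.prod_Ico_eq_prod_range,
    show t + (i + 3) - t = i + 1 + 1 + 1 by omega, prod_range_succ, prod_range_succ']
  have e0 : (P (X j (t + 0) ⁻¹' if t + 0 = t ∨ t + 0 = t + (i + 2) then {true} else {false})).toReal
      = p := by
    rw [if_pos (Or.inl (by omega))]
    exact prob_true hX hp j (t + 0)
  have e1 : (P (X j (t + (i + 1 + 1)) ⁻¹' if t + (i + 1 + 1) = t ∨ t + (i + 1 + 1) = t + (i + 2)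
      then {true} else {false})).toReal = p := by
    rw [if_pos (Or.inr (by omega))]
    exact prob_true hX hp j (t + (i + 1 + 1))
  have e2 : ∏ x ∈ range (i + 1), (P (X j (t + (x + 1)) ⁻¹' if t + (x + 1) = t ∨
      t + (x + 1) = t + (i + 2) then {true} else {false})).toReal = (1 - p) ^ (i + 1) := by
    rw [prod_congr rfl (g := fun _ => 1 - p)]
    · simp
    · intro x hx
      rw [mem_range] at hx
      rw [if_neg (by omega)]
      exact prob_false hX hp j (t + (x + 1))
  rw [e0, e1, e2]
  ring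

/-- The integrated inequality. -/
theorem integrated (hX : IsCoupling P k p X) (hp : 0 ≤ p) (hk : 0 < k) (n M : ℕ) :
    ((n * k : ℕ) : ℝ) * ∑ i ∈ range M, p ^ 2 * (1 - p) ^ (i + 1) * (1 / ((i : ℝ) + 1)) ≤
      (n + M + 1 : ℕ) * (1 - k * p) := by
  have := hX.prob
  set f : Ω → ℝ := fun ω => ∑ m ∈ range (n * k), ∑ i ∈ range M,
    (Ev hk X m i).indicator (fun _ => 1 / ((i : ℝ) + 1)) ω with hf
  set g : Ω → ℝ := fun ω => ((n + M + 1 : ℕ) : ℝ) - ∑ m ∈ range ((n + M + 1) * k),
    {ω | bt hk X m ω = true}.indicator (fun _ => (1 : ℝ)) ω with hg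
  have hfi1 : ∀ m i, Integrable (fun ω => (Ev hk X m i).indicator
      (fun _ => 1 / ((i : ℝ) + 1)) ω) P :=
    fun m i => (integrable_const _).indicator (meas_ev hX hk m i)
  have hfi : Integrable f P :=
    integrable_finsetSum _ fun m _ => integrable_finsetSum _ fun i _ => hfi1 m i
  have hgi1 : ∀ m, Integrable (fun ω => {ω | bt hk X m ω = true}.indicator
      (fun _ => (1 : ℝ)) ω) P :=
    fun m => (integrable_const _).indicator (meas_val hX _ _ true)
  have hgi2 : Integrable (fun ω => ∑ m ∈ range ((n + M + 1) * k),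
      {ω | bt hk X m ω = true}.indicator (fun _ => (1 : ℝ)) ω) P :=
    integrable_finsetSum _ fun m _ => hgi1 m
  have hgi : Integrable g P := (integrable_const _).sub hgi2
  have hle : f ≤ᵐ[P] g := by
    filter_upwards [hX.avoid] with ω hω
    have hgap := gap_ones hk X (n + M + 1) ω hω
    have h1 := det (k := k) hk hgap (n := n + M + 1) (fun m hm => by
      simp only [ones, mem_filter, mem_range] at hm
      exact hm.1) (range (n * k)) M
    have h2 : f ω ≤ ∑ m ∈ range (n * k), ∑ i ∈ range M,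
        (if Fr k (ones hk X (n + M + 1) ω) m (i + 2) then (1 : ℝ) / (i + 1) else 0) := by
      refine sum_le_sum fun m hm => sum_le_sum fun i hi => ?_
      rw [mem_range] at hm hi
      by_cases hev : ω ∈ Ev hk X m i
      · rw [Set.indicator_of_mem hev, if_pos (fr_of_ev hk X hm hi hev)]
      · rw [Set.indicator_of_notMem hev]
        split_ifs
        · positivity
        · exact le_refl 0
    have h3 : g ω = ((n + M + 1 : ℕ) : ℝ) - (ones hk X (n + M + 1) ω).card := by
      rw [ones, card_filter, Nat.cast_sum, hg]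
      refine congrArg (fun z : ℝ => ((n + M + 1 : ℕ) : ℝ) - z) ?_
      refine sum_congr rfl fun m _ => ?_
      rw [Nat.cast_ite, Nat.cast_one, Nat.cast_zero]
      by_cases hb : bt hk X m ω = true
      · rw [if_pos hb, Set.indicator_of_mem (by exact hb)]
      · rw [if_neg hb, Set.indicator_of_notMem (by exact hb)]
    rw [h3]
    exact h2.trans h1
  have hint := integral_mono_ae hfi hgi hle
  have e1 : ∫ ω, f ω ∂P = ((n * k : ℕ) : ℝ) *
      ∑ i ∈ range M, p ^ 2 * (1 - p) ^ (i + 1) * (1 / ((i : ℝ) + 1)) := by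
    rw [hf, integral_finsetSum _ fun m _ => integrable_finsetSum _ fun i _ => hfi1 m i]
    rw [sum_congr rfl (g := fun _ => ∑ i ∈ range M,
      p ^ 2 * (1 - p) ^ (i + 1) * (1 / ((i : ℝ) + 1)))]
    · rw [sum_const, card_range, nsmul_eq_mul]
    · intro m _
      rw [integral_finsetSum _ fun i _ => hfi1 m i]
      refine sum_congr rfl fun i _ => ?_
      rw [integral_indicator_const _ (meas_ev hX hk m i), prob_ev hX hp hk, smul_eq_mul]
  have e2 : ∫ ω, g ω ∂P = (n + M + 1 : ℕ) * (1 - k * p) := by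
    rw [hg, integral_sub (integrable_const _) hgi2, integral_finsetSum _ fun m _ => hgi1 m]
    rw [sum_congr rfl (g := fun _ => p)]
    · rw [sum_const, card_range, nsmul_eq_mul, integral_const, probReal_univ, one_smul]
      push_cast
      ring
    · intro m _
      have hms : MeasurableSet {ω | bt hk X m ω = true} := meas_val hX _ _ true
      rw [integral_indicator_const _ hms]
      have h6 : P.real {ω | bt hk X m ω = true} = p := prob_true hX hp _ _
      rw [h6, smul_eq_mul, mul_one]
  rw [e1, e2] at hint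
  exact hint

end

/-- The upper bound for finitely many terms. -/
theorem bound_fin {k : ℕ} {p : ℝ} (hk : 0 < k) (hp : 0 ≤ p) (h : Coupled k p) (M : ℕ) :
    (k : ℝ) * (p ^ 2 * ∑ i ∈ range M, (1 - p) ^ (i + 1) / ((i : ℝ) + 1)) ≤ 1 - k * p := by
  obtain ⟨Ω, _, P, X, hX⟩ := h
  set s : ℝ := ∑ i ∈ range M, p ^ 2 * (1 - p) ^ (i + 1) * (1 / ((i : ℝ) + 1)) with hs
  have hs2 : p ^ 2 * ∑ i ∈ range M, (1 - p) ^ (i + 1) / ((i : ℝ) + 1) = s := by
    rw [hs, mul_sum]
    exact sum_congr rfl fun i _ => by ring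
  rw [hs2]
  have h1 : ∀ n : ℕ, ((n : ℝ)) * (k * s - (1 - k * p)) ≤ (M + 1) * (1 - k * p) := by
    intro n
    have h2 := integrated hX hp hk n M
    rw [← hs] at h2
    push_cast at h2
    nlinarith
  by_contra hcon
  push Not at hcon
  obtain ⟨n, hn⟩ := exists_nat_gt ((M + 1) * (1 - k * p) / (k * s - (1 - k * p)))
  rw [div_lt_iff₀ (by linarith)] at hn
  linarith [h1 n]

/-- The upper bound for a coupling. -/
theorem bound {k : ℕ} {p : ℝ} (hk : 0 < k) (hp : 0 < p) (hp1 : p ≤ 1) (h : Coupled k p) :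
    k * p + k * p ^ 2 * Real.log (1 / p) ≤ 1 := by
  have h1 : |1 - p| < 1 := by
    rw [abs_lt]
    constructor <;> linarith
  have h2 := (Real.hasSum_pow_div_log_of_abs_lt_one h1).tendsto_sum_nat
  have h3 : Tendsto (fun M : ℕ => (k : ℝ) * (p ^ 2 * ∑ i ∈ range M, (1 - p) ^ (i + 1) /
      ((i : ℝ) + 1))) atTop (𝓝 (k * (p ^ 2 * -Real.log (1 - (1 - p))))) :=
    (h2.const_mul _).const_mul _
  have h4 := le_of_tendsto' h3 (bound_fin hk hp.le h)
  rw [show 1 - (1 - p) = p by ring] at h4
  rw [one_div, Real.log_inv]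
  linarith

end Pool.Agent.PKL
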