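import Pool.Agent.PKA.UB
import Pool.Agent.PKL.Prob

set_option autoImplicit false

/-!
# The upper bound for `pk` (MP_f1618c_pr)
-/

open Filter Topology
open Pool.Agent.PKA

noncomputable section

namespace Pool.Agent.PKL

/-- The bound as a continuous function. -/
theorem gfun_eq (k : ℕ) (p : ℝ) : (k : ℝ) * p + k * p ^ 2 * Real.log (1 / p) =
    k * p - k * p * (p * Real.log p) := by
  rw [one_div, Real.log_inv]
  ring

/-- The upper bound holds for the supremum. -/
theorem pk_bound {k : ℕ} (hk : 0 < k) :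
    (k : ℝ) * pk k + k * (pk k) ^ 2 * Real.log (1 / pk k) ≤ 1 := by
  set S : Set ℝ := {p : ℝ | 0 ≤ p ∧ p ≤ 1 ∧ Coupled k p} with hS
  have hall : ∀ p ∈ S, (k : ℝ) * p - k * p * (p * Real.log p) ≤ 1 := by
    intro p hp
    rw [← gfun_eq]
    rcases hp.1.eq_or_lt with h | h
    · rw [← h]
      norm_num
    · exact bound hk h hp.2.1 hp.2.2
  have hcont : Continuous fun p : ℝ => (k : ℝ) * p - k * p * (p * Real.log p) :=
    (continuous_const.mul continuous_id).sub
      ((continuous_const.mul continuous_id).mul Real.continuous_mul_log)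
  have hclosed : IsClosed {p : ℝ | (k : ℝ) * p - k * p * (p * Real.log p) ≤ 1} :=
    isClosed_le hcont continuous_const
  rw [gfun_eq]
  rcases S.eq_empty_or_nonempty with h | h
  · have : pk k = 0 := by
      unfold pk
      rw [← hS, h, Real.sSup_empty]
    rw [this]
    norm_num
  · have hmem : sSup S ∈ closure S := csSup_mem_closure h ⟨1, fun p hp => hp.2.1⟩
    exact closure_minimal hall hclosed hmem

theorem pk_le_inv {k : ℕ} (hk : 0 < k) : pk k ≤ 1 / k := by
  have hkR : (0 : ℝ) < k := by exact_mod_cast hk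
  apply Real.sSup_le
  · intro p hp
    rw [le_div_iff₀ hkR, mul_comm]
    exact p_UB k p hk hp.1 hp.2.2
  · positivity

/-- The supremum is less than `1 / k`. -/
theorem pk_lt_inv {k : ℕ} (hk : 2 ≤ k) : pk k < 1 / k := by
  have hkR : (2 : ℝ) ≤ k := by exact_mod_cast hk
  have hk0 : (0 : ℝ) < k := by linarith
  refine lt_of_le_of_ne (pk_le_inv (by omega)) fun h => ?_
  have h1 := pk_bound (k := k) (by omega)
  rw [h, one_div_one_div, mul_one_div_cancel hk0.ne'] at h1
  have h2 : 0 < Real.log k := Real.log_pos (by linarith)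
  have h3 : 0 < (k : ℝ) * (1 / k) ^ 2 * Real.log k := by positivity
  linarith

/-- The second term of the asymptotics is at least `log k / k`. -/
theorem pk_asymp (h1 : Tendsto (fun k : ℕ => (k : ℝ) * pk k) atTop (𝓝 1)) {ε : ℝ} (hε : 0 < ε) :
    ∀ᶠ k : ℕ in atTop, (k : ℝ) * pk k ≤ 1 - (1 - ε) * (Real.log k / k) := by
  have h2 : Tendsto (fun k : ℕ => ((k : ℝ) * pk k) ^ 2) atTop (𝓝 1) := by
    have := h1.pow 2
    rwa [one_pow] at this
  filter_upwards [h2.eventually (lt_mem_nhds (show 1 - ε < 1 by linarith)),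
    h1.eventually (lt_mem_nhds (show (0 : ℝ) < 1 by norm_num)), eventually_ge_atTop 1]
    with k hk1 hk2 hk3
  have hkR : (0 : ℝ) < k := by exact_mod_cast hk3
  have hk1R : (1 : ℝ) ≤ k := by exact_mod_cast hk3
  have hpos : 0 < pk k := by
    by_contra hcon
    push Not at hcon
    nlinarith
  have hlog : Real.log k ≤ Real.log (1 / pk k) := by
    apply Real.log_le_log hkR
    rw [le_div_iff₀ hpos]
    have h3 := pk_le_inv hk3
    rw [le_div_iff₀ hkR] at h3
    linarith
  have hlog0 : 0 ≤ Real.log k := Real.log_nonneg hk1R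
  have h4 := pk_bound hk3
  have h5 : (1 - ε) * (Real.log k / k) ≤ k * (pk k) ^ 2 * Real.log (1 / pk k) := by
    have e : k * (pk k) ^ 2 * Real.log (1 / pk k) =
        (k * pk k) ^ 2 * (Real.log (1 / pk k) / k) := by
      field_simp
    rw [e]
    apply (mul_le_mul_of_nonneg_right hk1.le (by positivity)).trans
    apply mul_le_mul_of_nonneg_left _ (by positivity)
    exact div_le_div_of_nonneg_right hlog hkR.le
  linarith

end Pool.Agent.PKL
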