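import Mathlib

set_option autoImplicit false

/-!
# Return times in a finite set of integers (MP_f1618c_pr)

`main`: for a finite set `R` of integers in `[a, b]`, the sum over `x ∈ R` of `1 / N(x)` is at most
`⌊(b - a) / k⌋`, where `N(x)` is the number of elements of `R` in `(x, y]` and `y` is the next
element of `R` which is congruent to `x` mod `k`. Proof: remove a poorest window of length `k`.
-/

open scoped Classical
open Finset

noncomputable section

namespace Pool.Agent.PKL

/-- The number of elements of `R` in `(x, y]`. -/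
def cnt (R : Finset ℤ) (x y : ℤ) : ℕ := (R.filter (fun z => x < z ∧ z ≤ y)).card

/-- `y` is the next element of `R` after `x` which is congruent to `x` mod `k`. -/
def Ret (k : ℕ) (R : Finset ℤ) (x y : ℤ) : Prop :=
  y ∈ R ∧ x < y ∧ (k : ℤ) ∣ y - x ∧ ∀ z ∈ R, x < z → z < y → ¬ (k : ℤ) ∣ z - x

/-- `1 / N(x)`, or zero if there is no return. -/
def w (k : ℕ) (R : Finset ℤ) (x : ℤ) : ℝ :=
  ∑ y ∈ R, if Ret k R x y then (1 : ℝ) / cnt R x y else 0

/-- The sum of the `1 / N(x)`. -/
def W (k : ℕ) (R : Finset ℤ) : ℝ := ∑ x ∈ R, w k R x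

theorem Ret.unique {k : ℕ} {R : Finset ℤ} {x y y' : ℤ} (h : Ret k R x y) (h' : Ret k R x y') :
    y = y' := by
  by_contra hne
  rcases lt_or_gt_of_ne hne with hlt | hlt
  · exact h'.2.2.2 y h.1 h.2.1 hlt h.2.2.1
  · exact h.2.2.2 y' h'.1 h'.2.1 hlt h'.2.2.1

theorem w_of_ret {k : ℕ} {R : Finset ℤ} {x y : ℤ} (h : Ret k R x y) :
    w k R x = 1 / cnt R x y := by
  unfold w
  rw [sum_eq_single y]
  · rw [if_pos h]
  · intro z _ hz
    rw [if_neg fun h' => hz (h'.unique h)]
  · intro hy
    exact absurd h.1 hy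

theorem w_of_not {k : ℕ} {R : Finset ℤ} {x : ℤ} (h : ∀ y, ¬ Ret k R x y) : w k R x = 0 := by
  unfold w
  exact sum_eq_zero fun y _ => if_neg (h y)

theorem w_nonneg (k : ℕ) (R : Finset ℤ) (x : ℤ) : 0 ≤ w k R x := by
  unfold w
  refine sum_nonneg fun y _ => ?_
  split_ifs
  · positivity
  · exact le_rfl

theorem cnt_add (R : Finset ℤ) {x y z : ℤ} (h1 : x ≤ y) (h2 : y ≤ z) :
    cnt R x z = cnt R x y + cnt R y z := by
  unfold cnt
  rw [← card_union_of_disjoint]
  · congr 1
    ext t
    simp only [mem_filter, mem_union]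
    constructor
    · rintro ⟨ht, h3, h4⟩
      by_cases h : t ≤ y
      · exact Or.inl ⟨ht, h3, h⟩
      · exact Or.inr ⟨ht, by omega, h4⟩
    · rintro (⟨ht, h3, h4⟩ | ⟨ht, h3, h4⟩)
      · exact ⟨ht, h3, by omega⟩
      · exact ⟨ht, by omega, h4⟩
  · rw [disjoint_left]
    intro t h3 h4
    simp only [mem_filter] at h3 h4
    omega

theorem cnt_mono (R : Finset ℤ) {x y z : ℤ} (h1 : x ≤ y) (h2 : y ≤ z) :
    cnt R x y ≤ cnt R x z := by
  rw [cnt_add R h1 h2]
  omega

theorem cnt_pos {R : Finset ℤ} {x y z : ℤ} (hz : z ∈ R) (h1 : x < z) (h2 : z ≤ y) :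
    0 < cnt R x y := by
  unfold cnt
  exact card_pos.mpr ⟨z, by simp only [mem_filter]; exact ⟨hz, h1, h2⟩⟩

/-- A return takes at least `k`. -/
theorem Ret.far {k : ℕ} {R : Finset ℤ} {x y : ℤ} (h : Ret k R x y) : x + k ≤ y := by
  have := Int.le_of_dvd (by linarith [h.2.1]) h.2.2.1
  linarith

theorem ineq (h u v : ℝ) (h0 : 0 < h) (hu : h ≤ u) (hv : h ≤ v) :
    1 / u + 1 / v ≤ 1 / h + 1 / (u + v - h) := by
  have h1 : 0 < u := lt_of_lt_of_le h0 hu
  have h2 : 0 < v := lt_of_lt_of_le h0 hv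
  have h3 : 0 < u + v - h := by linarith
  rw [div_add_div _ _ h1.ne' h2.ne', div_add_div _ _ h0.ne' h3.ne', div_le_div_iff₀
    (by positivity) (by positivity)]
  have h4 : 0 ≤ (u - h) * (v - h) := mul_nonneg (by linarith) (by linarith)
  nlinarith [mul_nonneg h4 (by linarith : 0 ≤ u + v)]

/-- The set without the window `(y₀, y₀ + k]`. -/
def cut (k : ℕ) (R : Finset ℤ) (y₀ : ℤ) : Finset ℤ :=
  R.filter (fun z => z ≤ y₀) ∪ (R.filter (fun z => y₀ + k < z)).image (fun z => z - k)

theorem mem_cut {k : ℕ} {R : Finset ℤ} {y₀ z : ℤ} :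
    z ∈ cut k R y₀ ↔ (z ∈ R ∧ z ≤ y₀) ∨ (z + k ∈ R ∧ y₀ < z) := by
  unfold cut
  simp only [mem_union, mem_filter, mem_image]
  constructor
  · rintro (h | ⟨a, ⟨h1, h2⟩, rfl⟩)
    · exact Or.inl h
    · exact Or.inr ⟨by simpa using h1, by linarith⟩
  · rintro (h | ⟨h1, h2⟩)
    · exact Or.inl h
    · exact Or.inr ⟨z + k, ⟨h1, by linarith⟩, by ring⟩

theorem cnt_cut_low {k : ℕ} {R : Finset ℤ} {y₀ x y : ℤ} (hy : y ≤ y₀) :
    cnt (cut k R y₀) x y = cnt R x y := by
  unfold cnt
  congr 1
  ext z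
  simp only [mem_filter, mem_cut]
  constructor
  · rintro ⟨h1 | h1, h2, h3⟩
    · exact ⟨h1.1, h2, h3⟩
    · omega
  · rintro ⟨h1, h2, h3⟩
    exact ⟨Or.inl ⟨h1, by omega⟩, h2, h3⟩

theorem cnt_cut_high {k : ℕ} {R : Finset ℤ} {y₀ x y : ℤ} (hx : y₀ + k ≤ x) :
    cnt (cut k R y₀) (x - k) (y - k) = cnt R x y := by
  unfold cnt
  have : (cut k R y₀).filter (fun z => x - k < z ∧ z ≤ y - k) =
      (R.filter (fun z => x < z ∧ z ≤ y)).image (fun z => z - (k : ℤ)) := by
    ext z
    simp only [mem_filter, mem_cut, mem_image]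
    constructor
    · rintro ⟨h1 | h1, h2, h3⟩
      · omega
      · exact ⟨z + k, ⟨h1.1, by omega, by omega⟩, by ring⟩
    · rintro ⟨a, ⟨h1, h2, h3⟩, rfl⟩
      exact ⟨Or.inr ⟨by simpa using h1, by omega⟩, by omega, by omega⟩
  rw [this, card_image_of_injective]
  intro a b hab
  simpa using hab

theorem cnt_cut_mid {k : ℕ} {R : Finset ℤ} {y₀ x y : ℤ} (hx : x ≤ y₀) (hy : y₀ + k ≤ y) :
    cnt (cut k R y₀) x (y - k) = cnt R x y₀ + cnt R (y₀ + k) y := by
  rw [cnt_add (cut k R y₀) hx (by linarith : y₀ ≤ y - k), cnt_cut_low le_rfl]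
  congr 1
  have := cnt_cut_high (R := R) (y₀ := y₀) (k := k) (x := y₀ + k) (y := y) le_rfl
  rw [← this]
  congr 1
  ring

/-- Removing a poorest window costs at most one. -/
theorem W_cut {k : ℕ} {R : Finset ℤ} {a b y₀ : ℤ} (hR : ∀ x ∈ R, a ≤ x ∧ x ≤ b)
    (hmin : ∀ y, a ≤ y → y + k ≤ b → cnt R y₀ (y₀ + k) ≤ cnt R y (y + k)) :
    W k R ≤ W k (cut k R y₀) + 1 := by
  set D := R.filter (fun z => y₀ < z ∧ z ≤ y₀ + k) with hD
  set L := R.filter (fun z => z ≤ y₀) with hL
  set U := R.filter (fun z => y₀ + k < z) with hU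
  set h := cnt R y₀ (y₀ + k) with hh
  have hcard : D.card = h := rfl
  have hk0 : (0 : ℤ) ≤ k := by positivity
  have hge : ∀ x y, x ∈ R → Ret k R x y → h ≤ cnt R x y := fun x y hx hxy => by
    refine (hmin x (hR x hx).1 (hxy.far.trans (hR y hxy.1).2)).trans ?_
    exact cnt_mono R (by linarith) hxy.far
  have hwle : ∀ z ∈ D, w k R z ≤ 1 / (h : ℝ) := fun z hz => by
    have hz' := hz
    simp only [hD, mem_filter] at hz'
    have hpos : 0 < h := cnt_pos hz'.1 hz'.2.1 hz'.2.2
    by_cases hr : ∃ v, Ret k R z v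
    · obtain ⟨v, hv⟩ := hr
      rw [w_of_ret hv]
      exact one_div_le_one_div_of_le (by exact_mod_cast hpos) (by exact_mod_cast hge z v hz'.1 hv)
    · rw [w_of_not fun y hy => hr ⟨y, hy⟩]
      positivity
  -- the decomposition of the two sums
  have hdec : W k R = ∑ x ∈ L, w k R x + ∑ x ∈ D, w k R x + ∑ x ∈ U, w k R x := by
    unfold W
    rw [← sum_union, ← sum_union]
    · congr 1
      ext z
      simp only [hL, hD, hU, mem_union, mem_filter]
      constructor
      · intro hz
        by_cases h1 : z ≤ y₀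
        · exact Or.inl (Or.inl ⟨hz, h1⟩)
        · by_cases h2 : z ≤ y₀ + k
          · exact Or.inl (Or.inr ⟨hz, by omega, h2⟩)
          · exact Or.inr ⟨hz, by omega⟩
      · rintro ((hz | hz) | hz)
        · exact hz.1
        · exact hz.1
        · exact hz.1
    · rw [disjoint_left]
      intro z h1 h2
      simp only [hL, hD, hU, mem_union, mem_filter] at h1 h2
      omega
    · rw [disjoint_left]
      intro z h1 h2
      simp only [hL, hD, mem_filter] at h1 h2
      omega
  have hdec' : W k (cut k R y₀) = ∑ x ∈ L, w k (cut k R y₀) x +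
      ∑ x ∈ U, w k (cut k R y₀) (x - k) := by
    unfold W
    conv_lhs => rw [show cut k R y₀ = L ∪ U.image (fun z => z - (k : ℤ)) from rfl]
    rw [sum_union, sum_image]
    · rfl
    · intro a _ b _ hab
      simpa using hab
    · rw [disjoint_left]
      intro z h1 h2
      simp only [hL, hU, mem_filter, mem_image] at h1 h2
      obtain ⟨c, h3, h4⟩ := h2
      omega
  -- high part
  have hA : ∀ x ∈ U, w k R x ≤ w k (cut k R y₀) (x - k) := fun x hx => by
    simp only [hU, mem_filter] at hx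
    by_cases hr : ∃ v, Ret k R x v
    · obtain ⟨v, hv⟩ := hr
      have hv' : Ret k (cut k R y₀) (x - k) (v - k) := by
        refine ⟨mem_cut.mpr (Or.inr ⟨by simpa using hv.1, ?_⟩), ?_, ?_, ?_⟩
        · linarith [hv.2.1]
        · linarith [hv.2.1]
        · have := hv.2.2.1
          rwa [show v - (k : ℤ) - (x - k) = v - x by ring]
        · intro z hz h1 h2 h3
          rcases mem_cut.mp hz with h4 | h4
          · linarith [h4.2]
          · refine hv.2.2.2 (z + k) h4.1 (by linarith) (by linarith) ?_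
            rwa [show z + (k : ℤ) - x = z - (x - k) by ring]
      rw [w_of_ret hv, w_of_ret hv', cnt_cut_high (by linarith)]
    · rw [w_of_not fun y hy => hr ⟨y, hy⟩]
      exact w_nonneg _ _ _
  -- low part
  have hB : ∀ x ∈ L, w k R x ≤ w k (cut k R y₀) x +
      ∑ z ∈ D, if Ret k R x z then (1 / (h : ℝ) - w k R z) else 0 := fun x hx => by
    simp only [hL, mem_filter] at hx
    by_cases hr : ∃ y, Ret k R x y
    swap
    · have h1 : ∑ z ∈ D, (if Ret k R x z then (1 / (h : ℝ) - w k R z) else 0) = 0 :=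
        sum_eq_zero fun z _ => if_neg fun hz => hr ⟨z, hz⟩
      rw [w_of_not fun y hy => hr ⟨y, hy⟩, h1, add_zero]
      exact w_nonneg _ _ _
    obtain ⟨y, hy⟩ := hr
    have hlow : ∀ z ∈ R, x < z → z ≤ y₀ → z < y → ¬ (k : ℤ) ∣ z - x := fun z hz h1 _ h3 =>
      hy.2.2.2 z hz h1 h3
    by_cases hyD : y ∈ D
    · have hsum : ∑ z ∈ D, (if Ret k R x z then (1 / (h : ℝ) - w k R z) else 0) =
          1 / (h : ℝ) - w k R y := by
        rw [sum_eq_single y]
        · rw [if_pos hy]
        · intro z _ hz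
          rw [if_neg fun h' => hz (h'.unique hy)]
        · intro h'
          exact absurd hyD h'
      have hyD' := hyD
      simp only [hD, mem_filter] at hyD'
      have hpos : 0 < h := cnt_pos hyD'.1 hyD'.2.1 hyD'.2.2
      have hposr : (0 : ℝ) < h := by exact_mod_cast hpos
      have hu := hge x y hx.1 hy
      rw [hsum, w_of_ret hy]
      by_cases hr : ∃ v, Ret k R y v
      · obtain ⟨v, hv⟩ := hr
        have hvf := hv.far
        have hv' : Ret k (cut k R y₀) x (v - k) := by
          refine ⟨mem_cut.mpr (Or.inr ⟨by simpa using hv.1, by linarith⟩), by linarith, ?_, ?_⟩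
          · have h1 := dvd_add hv.2.2.1 hy.2.2.1
            have h2 := dvd_sub h1 (dvd_refl (k : ℤ))
            rwa [show v - y + (y - x) - (k : ℤ) = v - k - x by ring] at h2
          · intro z hz h1 h2 h3
            rcases mem_cut.mp hz with h4 | h4
            · exact hy.2.2.2 z h4.1 h1 (by linarith) h3
            · refine hv.2.2.2 (z + k) h4.1 (by linarith) (by linarith) ?_
              have h5 := dvd_sub (dvd_add h3 (dvd_refl (k : ℤ))) hy.2.2.1
              rwa [show z - x + (k : ℤ) - (y - x) = z + k - y by ring] at h5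
        have hv2 := hge y v hyD'.1 hv
        have hc : (cnt (cut k R y₀) x (v - k) : ℝ) = cnt R x y + cnt R y v - h := by
          rw [cnt_cut_mid hx.2 (by linarith)]
          have e1 := cnt_add R hx.2 hyD'.2.1.le
          have e2 := cnt_add R hyD'.2.2 (by linarith : y₀ + k ≤ v)
          have e3 := cnt_add R hyD'.2.1.le hyD'.2.2
          rw [e1, e2, hh, e3]
          push_cast
          ring
        rw [w_of_ret hv, w_of_ret hv', hc]
        have := ineq h (cnt R x y) (cnt R y v) hposr (by exact_mod_cast hu) (by exact_mod_cast hv2)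
        linarith
      · rw [w_of_not fun y hy => hr ⟨y, hy⟩, sub_zero]
        have h1 : (1 : ℝ) / cnt R x y ≤ 1 / h :=
          one_div_le_one_div_of_le hposr (by exact_mod_cast hu)
        linarith [w_nonneg k (cut k R y₀) x]
    · have hsum : ∑ z ∈ D, (if Ret k R x z then (1 / (h : ℝ) - w k R z) else 0) = 0 :=
        sum_eq_zero fun z hz => if_neg fun h' => hyD (by rw [hy.unique h']; exact hz)
      rw [hsum, add_zero, w_of_ret hy]
      by_cases hyl : y ≤ y₀
      · have hy' : Ret k (cut k R y₀) x y := by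
          refine ⟨mem_cut.mpr (Or.inl ⟨hy.1, hyl⟩), hy.2.1, hy.2.2.1, ?_⟩
          intro z hz h1 h2
          rcases mem_cut.mp hz with h4 | h4
          · exact hy.2.2.2 z h4.1 h1 h2
          · linarith [h4.2]
        rw [w_of_ret hy', cnt_cut_low hyl]
      · have hyh : y₀ + k < y := by
          by_contra hcon
          apply hyD
          simp only [hD, mem_filter]
          exact ⟨hy.1, by omega, by omega⟩
        have hy' : Ret k (cut k R y₀) x (y - k) := by
          refine ⟨mem_cut.mpr (Or.inr ⟨by simpa using hy.1, by linarith⟩), by linarith, ?_, ?_⟩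
          · have h2 := dvd_sub hy.2.2.1 (dvd_refl (k : ℤ))
            rwa [show y - x - (k : ℤ) = y - k - x by ring] at h2
          · intro z hz h1 h2 h3
            rcases mem_cut.mp hz with h4 | h4
            · exact hy.2.2.2 z h4.1 h1 (by linarith) h3
            · refine hy.2.2.2 (z + k) h4.1 (by linarith) (by linarith) ?_
              have h5 := dvd_add h3 (dvd_refl (k : ℤ))
              rwa [show z - x + (k : ℤ) = z + k - x by ring] at h5
        rw [w_of_ret hy']
        have hpos : 0 < cnt (cut k R y₀) x (y - k) := cnt_pos hy'.1 hy'.2.1 le_rfl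
        refine one_div_le_one_div_of_le (by exact_mod_cast hpos) ?_
        rw [cnt_cut_mid hx.2 hyh.le, cnt_add R hx.2 (by linarith : y₀ ≤ y),
          cnt_add R (by linarith : y₀ ≤ y₀ + k) hyh.le]
        push_cast
        linarith [(Nat.cast_nonneg (cnt R y₀ (y₀ + k)) : (0 : ℝ) ≤ _)]
  -- at most one predecessor
  have hC : ∀ z ∈ D, ∑ x ∈ L, (if Ret k R x z then (1 / (h : ℝ) - w k R z) else 0) ≤
      1 / (h : ℝ) - w k R z := fun z hz => by
    have hnn : 0 ≤ 1 / (h : ℝ) - w k R z := by linarith [hwle z hz]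
    by_cases hr : ∃ x ∈ L, Ret k R x z
    · obtain ⟨x, hx, hxz⟩ := hr
      rw [sum_eq_single x]
      · rw [if_pos hxz]
      · intro x' hx' hne
        rw [if_neg]
        intro hx'z
        simp only [hL, mem_filter] at hx hx'
        rcases lt_or_gt_of_ne hne with h1 | h1
        · refine hx'z.2.2.2 x hx.1 h1 hxz.2.1 ?_
          have := dvd_sub hx'z.2.2.1 hxz.2.2.1
          rwa [show z - x' - (z - x) = x - x' by ring] at this
        · refine hxz.2.2.2 x' hx'.1 h1 hx'z.2.1 ?_
          have := dvd_sub hxz.2.2.1 hx'z.2.2.1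
          rwa [show z - x - (z - x') = x' - x by ring] at this
      · intro h'
        exact absurd hx h'
    · rw [sum_eq_zero fun x hx => if_neg fun h' => hr ⟨x, hx, h'⟩]
      exact hnn
  have h1 : ∑ x ∈ L, w k R x ≤ ∑ x ∈ L, w k (cut k R y₀) x +
      ∑ z ∈ D, (1 / (h : ℝ) - w k R z) := by
    refine (sum_le_sum hB).trans ?_
    rw [sum_add_distrib, sum_comm]
    have := sum_le_sum hC
    linarith
  have h2 : ∑ x ∈ U, w k R x ≤ ∑ x ∈ U, w k (cut k R y₀) (x - k) := sum_le_sum hA
  have h3 : ∑ z ∈ D, (1 / (h : ℝ) - w k R z) + ∑ z ∈ D, w k R z ≤ 1 := by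
    rw [← sum_add_distrib]
    simp only [sub_add_cancel, sum_const, nsmul_eq_mul, hcard]
    by_cases h0 : h = 0
    · simp [h0]
    · rw [mul_one_div_cancel (by exact_mod_cast h0)]
  rw [hdec, hdec']
  linarith

/-- The sum of `1 / N(x)` over a finite set in `[a, b]` is at most `(b - a) / k`. -/
theorem main {k : ℕ} (hk : 1 ≤ k) : ∀ (n : ℕ) (R : Finset ℤ) (a b : ℤ),
    (∀ x ∈ R, a ≤ x ∧ x ≤ b) → b - a < (n + 1) * k → W k R ≤ n := by
  have hk' : (1 : ℤ) ≤ k := by exact_mod_cast hk
  intro n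
  induction n with
  | zero =>
    intro R a b hR hab
    have : W k R = 0 := by
      unfold W
      refine sum_eq_zero fun x hx => w_of_not fun y hy => ?_
      have h1 := hy.far
      have h2 := hR x hx
      have h3 := hR y hy.1
      push_cast at hab
      linarith
    rw [this]
    simp
  | succ n ih =>
    intro R a b hR hab
    by_cases hlt : b - a < (n + 1) * k
    · refine (ih R a b hR hlt).trans ?_
      push_cast
      linarith
    · have hge : a ≤ b - k := by
        have : (k : ℤ) ≤ (n + 1) * k := by nlinarith [(Nat.cast_nonneg n : (0 : ℤ) ≤ n)]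
        linarith [not_lt.mp hlt]
      obtain ⟨y₀, hy₀, hmin⟩ := exists_min_image (Icc a (b - k)) (fun y => cnt R y (y + k))
        ⟨a, by simp only [mem_Icc]; exact ⟨le_rfl, hge⟩⟩
      simp only [mem_Icc] at hy₀ hmin
      have h1 := W_cut (k := k) (y₀ := y₀) hR (fun y h2 h3 => hmin y ⟨h2, by linarith⟩)
      have h4 := ih (cut k R y₀) a (b - k) ?_ ?_
      · push_cast
        linarith
      · intro z hz
        rcases mem_cut.mp hz with h5 | h5
        · exact ⟨(hR z h5.1).1, by linarith⟩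
        · have := hR _ h5.1
          exact ⟨by linarith, by linarith⟩
      · push_cast at hab ⊢
        linarith

end Pool.Agent.PKL
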